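import Pool.Agent.H4.Main

/-!
# MP_11217e_co : 4-homogeneous latin squares of almost all orders not divisible by 8

Definitions (`IsLatinSquare`, `IsIntercalate`, `IsHomogeneous`) are in `Pool.Agent.H4.Basic`.
-/

namespace Pool.Agent.Results.MP_11217e_co.AllLargeOrders

open Pool.Agent.H4

/-- Only finitely many positive integers not divisible by 8 are not orders of 4-homogeneous latin
squares. -/
theorem result : Set.Finite {n : ℕ | 0 < n ∧ ¬ 8 ∣ n ∧
    ¬ ∃ L : Fin n → Fin n → Fin n, IsLatinSquare L ∧ IsHomogeneous 4 L} := by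
  obtain ⟨N₀, h⟩ := main
  refine (Set.finite_lt_nat N₀).subset ?_
  rintro n ⟨-, -, hn⟩
  by_contra hlt
  exact hn (h n (not_lt.1 hlt))

end Pool.Agent.Results.MP_11217e_co.AllLargeOrders
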