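import Pool.Agent.H4.CubeMul

/-!
# MP_11217e_co : 4-homogeneous latin squares whose order is divisible by the cube of an odd prime

Definitions (`IsLatinSquare`, `IsIntercalate`, `IsHomogeneous`) are in `Pool.Agent.H4.Basic`.
-/

namespace Pool.Agent.Results.MP_11217e_co.CubeOrders

open Pool.Agent.H4

/-- If `n` is not divisible by 8 but by the cube of an odd prime `p` and `n ≠ 2 p ^ 3, 4 p ^ 3`, then
there is a 4-homogeneous latin square of order `n`. -/
theorem result : ∀ n : ℕ, ¬ 8 ∣ n → (∃ p : ℕ, p.Prime ∧ p ≠ 2 ∧ p ^ 3 ∣ n ∧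
    n ≠ 2 * p ^ 3 ∧ n ≠ 4 * p ^ 3) →
    ∃ L : Fin n → Fin n → Fin n, IsLatinSquare L ∧ IsHomogeneous 4 L := by
  rintro n - ⟨p, hp, hp2, ⟨m, rfl⟩, h2, h4⟩
  refine ord4_cube_mul hp hp2 ?_ ?_
  · rintro rfl
    exact h2 (mul_comm _ _)
  · rintro rfl
    exact h4 (mul_comm _ _)

end Pool.Agent.Results.MP_11217e_co.CubeOrders
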