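import Mathlib

/-!
# MP_11217e_co : 4-homogeneous latin squares whose order is not divisible by 8

There is a 4-homogeneous latin square of every order divisible by 12 but not by 8.  The first one,
of order 12, answers the particular question of Q1.
-/

namespace Pool.Agent.Results.MP_11217e_co.OrderTwelveM

/-- `L` is a latin square with rows, columns and symbols indexed by `α`: every symbol occurs
exactly once in each row and exactly once in each column. -/
def IsLatinSquare {α : Type*} (L : α → α → α) : Prop :=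
  (∀ r s, ∃! c, L r c = s) ∧ (∀ c s, ∃! r, L r c = s)

/-- `S` is the set of the four cells of an intercalate of `L`. -/
def IsIntercalate {α : Type*} (L : α → α → α) (S : Set (α × α)) : Prop :=
  ∃ r r' c c' : α, r ≠ r' ∧ c ≠ c' ∧ L r c = L r' c' ∧ L r c' = L r' c ∧
    S = {(r, c), (r, c'), (r', c), (r', c')}

/-- Every cell of `L` belongs to exactly `h` intercalates. -/
def IsHomogeneous {α : Type*} (h : ℕ) (L : α → α → α) : Prop :=
  ∀ p : α × α, Nat.card {S : Set (α × α) // IsIntercalate L S ∧ p ∈ S} = h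

/-- The opposite corners of the intercalates through a cell. -/
def Corner {α : Type*} (L : α → α → α) (r c : α) (q : α × α) : Prop :=
  r ≠ q.1 ∧ c ≠ q.2 ∧ L r c = L q.1 q.2 ∧ L r q.2 = L q.1 c

theorem card_through {α : Type*} (L : α → α → α) (r c : α) :
    Nat.card {S : Set (α × α) // IsIntercalate L S ∧ (r, c) ∈ S} =
      Nat.card {q : α × α // Corner L r c q} := by
  symm
  refine Nat.card_congr (Equiv.ofBijective (fun q => ⟨{(r, c), (r, q.1.2), (q.1.1, c),
    (q.1.1, q.1.2)}, ⟨r, q.1.1, c, q.1.2, q.2.1, q.2.2.1, q.2.2.2.1, q.2.2.2.2, rfl⟩,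
    by simp⟩) ⟨?_, ?_⟩)
  · rintro ⟨⟨a, b⟩, hq⟩ ⟨⟨a', b'⟩, hq'⟩ h
    have h1 : ({(r, c), (r, b), (a, c), (a, b)} : Set (α × α)) =
      {(r, c), (r, b'), (a', c), (a', b')} := congrArg Subtype.val h
    obtain ⟨h2, h3, -, -⟩ := hq
    obtain ⟨h2', h3', -, -⟩ := hq'
    have h4 : (a, b) ∈ ({(r, c), (r, b'), (a', c), (a', b')} : Set (α × α)) := by
      rw [← h1]; simp
    simp only [Set.mem_insert_iff, Set.mem_singleton_iff, Prod.mk.injEq] at h4
    simp only at h2 h3 h2' h3'
    rcases h4 with ⟨h5, h6⟩ | ⟨h5, h6⟩ | ⟨h5, h6⟩ | ⟨h5, h6⟩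
    · exact absurd h5.symm h2
    · exact absurd h5.symm h2
    · exact absurd h6.symm h3
    · subst h5; subst h6; rfl
  · rintro ⟨S, ⟨a, a', b, b', h1, h2, h3, h4, rfl⟩, hm⟩
    simp only [Set.mem_insert_iff, Set.mem_singleton_iff, Prod.mk.injEq] at hm
    rcases hm with ⟨rfl, rfl⟩ | ⟨rfl, rfl⟩ | ⟨rfl, rfl⟩ | ⟨rfl, rfl⟩
    · exact ⟨⟨(a', b'), h1, h2, h3, h4⟩, rfl⟩
    · refine ⟨⟨(a', b), h1, h2.symm, h4, h3⟩, Subtype.ext ?_⟩
      ext x; simp only [Set.mem_insert_iff, Set.mem_singleton_iff]; tauto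
    · refine ⟨⟨(a, b'), h1.symm, h2, h4.symm, h3.symm⟩, Subtype.ext ?_⟩
      ext x; simp only [Set.mem_insert_iff, Set.mem_singleton_iff]; tauto
    · refine ⟨⟨(a, b), h1.symm, h2.symm, h3.symm, h4.symm⟩, Subtype.ext ?_⟩
      ext x; simp only [Set.mem_insert_iff, Set.mem_singleton_iff]; tauto

theorem isHomogeneous_iff {α : Type*} (h : ℕ) (L : α → α → α) :
    IsHomogeneous h L ↔ ∀ r c, Nat.card {q : α × α // Corner L r c q} = h := by
  constructor
  · intro H r c
    rw [← card_through]; exact H (r, c)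
  · rintro H ⟨r, c⟩
    rw [card_through]; exact H r c

/-- Transport of a square along an equivalence. -/
def transport {α β : Type*} (e : α ≃ β) (L : α → α → α) : β → β → β :=
  fun r c => e (L (e.symm r) (e.symm c))

theorem transport_latin {α β : Type*} (e : α ≃ β) {L : α → α → α} (h : IsLatinSquare L) :
    IsLatinSquare (transport e L) := by
  constructor
  · intro r s
    obtain ⟨c, hc, hu⟩ := h.1 (e.symm r) (e.symm s)
    refine ⟨e c, by simp [transport, hc], fun c' hc' => ?_⟩
    have : e.symm c' = c := hu _ (by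
      have h1 : e (L (e.symm r) (e.symm c')) = s := hc'
      show L (e.symm r) (e.symm c') = e.symm s
      rw [← h1]; simp)
    rw [← this]; simp
  · intro c s
    obtain ⟨r, hr, hu⟩ := h.2 (e.symm c) (e.symm s)
    refine ⟨e r, by simp [transport, hr], fun r' hr' => ?_⟩
    have : e.symm r' = r := hu _ (by
      have h1 : e (L (e.symm r') (e.symm c)) = s := hr'
      show L (e.symm r') (e.symm c) = e.symm s
      rw [← h1]; simp)
    rw [← this]; simp

theorem transport_homogeneous {α β : Type*} (e : α ≃ β) {L : α → α → α} {h : ℕ}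
    (H : IsHomogeneous h L) : IsHomogeneous h (transport e L) := by
  rw [isHomogeneous_iff] at H ⊢
  intro r c
  rw [← H (e.symm r) (e.symm c)]
  refine Nat.card_congr ((Equiv.prodCongr e.symm e.symm).subtypeEquiv ?_)
  rintro ⟨a, b⟩
  simp [Corner, transport]

/-- The direct product of two squares. -/
def prodSquare {α β : Type*} (L : α → α → α) (M : β → β → β) : α × β → α × β → α × β :=
  fun r c => (L r.1 c.1, M r.2 c.2)

theorem prod_latin {α β : Type*} {L : α → α → α} {M : β → β → β} (hL : IsLatinSquare L)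
    (hM : IsLatinSquare M) : IsLatinSquare (prodSquare L M) := by
  constructor
  · rintro ⟨r, r'⟩ ⟨s, s'⟩
    obtain ⟨c, hc, hu⟩ := hL.1 r s
    obtain ⟨c', hc', hu'⟩ := hM.1 r' s'
    refine ⟨(c, c'), by simp only [prodSquare, hc, hc'], ?_⟩
    rintro ⟨d, d'⟩ hd
    simp only [prodSquare, Prod.mk.injEq] at hd
    rw [hu d hd.1, hu' d' hd.2]
  · rintro ⟨c, c'⟩ ⟨s, s'⟩
    obtain ⟨r, hr, hu⟩ := hL.2 c s
    obtain ⟨r', hr', hu'⟩ := hM.2 c' s'
    refine ⟨(r, r'), by simp only [prodSquare, hr, hr'], ?_⟩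
    rintro ⟨d, d'⟩ hd
    simp only [prodSquare, Prod.mk.injEq] at hd
    rw [hu d hd.1, hu' d' hd.2]

/-- The direct product with a square without intercalates keeps homogeneity. -/
theorem prod_homogeneous {α β : Type*} {L : α → α → α} {M : β → β → β} {h : ℕ}
    (hM : IsLatinSquare M) (hM0 : ∀ r c q, ¬ Corner M r c q) (H : IsHomogeneous h L) :
    IsHomogeneous h (prodSquare L M) := by
  rw [isHomogeneous_iff] at H ⊢
  rintro ⟨r, r'⟩ ⟨c, c'⟩
  rw [← H r c]
  symm
  refine Nat.card_congr (Equiv.ofBijective (fun q => ⟨((q.1.1, r'), (q.1.2, c')), ?_⟩) ⟨?_, ?_⟩)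
  · obtain ⟨h1, h2, h3, h4⟩ := q.2
    refine ⟨fun h => h1 (congrArg Prod.fst h), fun h => h2 (congrArg Prod.fst h), ?_, ?_⟩
    · simp only [prodSquare, h3]
    · simp only [prodSquare, h4]
  · rintro ⟨⟨a, b⟩, hq⟩ ⟨⟨a', b'⟩, hq'⟩ h
    have h1 := congrArg Subtype.val h
    simp only [Prod.mk.injEq] at h1
    obtain ⟨⟨rfl, -⟩, ⟨rfl, -⟩⟩ := h1
    rfl
  · rintro ⟨⟨⟨a, a'⟩, ⟨b, b'⟩⟩, h1, h2, h3, h4⟩
    simp only [prodSquare, Prod.mk.injEq] at h1 h2 h3 h4
    have haux : r' = a' ∧ c' = b' := by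
      by_cases hr : r' = a'
      · subst hr
        refine ⟨rfl, ?_⟩
        obtain ⟨x, -, hu⟩ := hM.1 r' (M r' c')
        rw [hu c' rfl, hu b' h3.2.symm]
      · by_cases hc : c' = b'
        · subst hc
          exfalso
          apply hr
          obtain ⟨x, -, hu⟩ := hM.2 c' (M r' c')
          rw [hu r' rfl, hu a' h3.2.symm]
        · exact absurd ⟨hr, hc, h3.2, h4.2⟩ (hM0 r' c' (a', b'))
    obtain ⟨rfl, rfl⟩ := haux
    have h5 : r ≠ a := fun h => h1 (by rw [h])
    have h6 : c ≠ b := fun h => h2 (by rw [h])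
    exact ⟨⟨(a, b), h5, h6, h3.1, h4.1⟩, rfl⟩

/-- The square of order 12, packed in base 16. -/
def code : ℕ := 176170926056562099627902933541918726466336113154628315727152961064377980018668706547520952290154213255862323457504894250637606223356033839017204534575410091896643866747873287

/-- A 4-homogeneous latin square of order 12. -/
def sq (r c : Fin 12) : Fin 12 := Fin.ofNat 12 (code / 16 ^ (12 * r.val + c.val) % 16)

theorem sq_latin : IsLatinSquare sq := by
  have h1 : ∀ r s, ∃ c, sq r c = s ∧ ∀ c', sq r c' = s → c' = c := by decide +kernel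
  have h2 : ∀ c s, ∃ r, sq r c = s ∧ ∀ r', sq r' c = s → r' = r := by decide +kernel
  exact ⟨h1, h2⟩

instance (r c : Fin 12) (q : Fin 12 × Fin 12) : Decidable (Corner sq r c q) := by
  unfold Corner; infer_instance

theorem sq_homogeneous : IsHomogeneous 4 sq := by
  rw [isHomogeneous_iff]
  intro r c
  rw [Nat.card_eq_fintype_card, Fintype.card_subtype]
  revert r c
  decide +kernel

theorem zmod_latin (m : ℕ) : IsLatinSquare (fun a b : ZMod m => a + b) := by
  constructor
  · intro r s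
    exact ⟨s - r, by ring, fun c hc => by rw [← hc]; ring⟩
  · intro c s
    exact ⟨s - c, by ring, fun r hr => by rw [← hr]; ring⟩

theorem zmod_corner (m : ℕ) (hm : Odd m) (r c : ZMod m) (q : ZMod m × ZMod m) :
    ¬ Corner (fun a b : ZMod m => a + b) r c q := by
  rintro ⟨h1, -, h2, h3⟩
  apply h1
  simp only at h2 h3
  have h4 : 2 * (r - q.1) = 0 := by linear_combination h2 + h3
  have h5 : IsUnit (2 : ZMod m) := by
    have := (ZMod.isUnit_iff_coprime 2 m).2 (Nat.coprime_two_left.2 hm)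
    simpa using this
  have h6 := (h5.mul_right_eq_zero).1 h4
  exact sub_eq_zero.1 h6

/-- For every order `n` divisible by 12 and not by 8 there is a 4-homogeneous latin square. -/
theorem result : ∀ n : ℕ, 12 ∣ n → ¬ 8 ∣ n →
    ∃ L : Fin n → Fin n → Fin n, IsLatinSquare L ∧ IsHomogeneous 4 L := by
  rintro n ⟨m, rfl⟩ h8
  have hm : Odd m := by
    rw [← Nat.not_even_iff_odd]
    rintro ⟨k, rfl⟩
    exact h8 ⟨3 * k, by ring⟩
  have hm0 : NeZero m := ⟨by rintro rfl; exact h8 (by simp)⟩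
  let e : Fin 12 × ZMod m ≃ Fin (12 * m) :=
    (Equiv.prodCongr (Equiv.refl _) (ZMod.finEquiv m).symm.toEquiv).trans finProdFinEquiv
  exact ⟨transport e (prodSquare sq (fun a b : ZMod m => a + b)),
    transport_latin e (prod_latin sq_latin (zmod_latin m)),
    transport_homogeneous e (prod_homogeneous (zmod_latin m)
      (zmod_corner m hm) sq_homogeneous)⟩

end Pool.Agent.Results.MP_11217e_co.OrderTwelveM
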